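import Pool.Agent.Q46.ND.StmE

/-!
# Project ND: double roots of `det (u T + M)`
-/

set_option autoImplicit false

namespace Pool.Agent.Q68.ND

open Pool.Agent.Q46.ND Module

/-- `chi u M` and the characteristic polynomial of `-u⁻¹ M`. -/
lemma chi_eq {L : Type} [Field L] {m d : ℕ} (u : L) (hu : u ≠ 0)
    (M : Matrix (BB m d) (BB m d) L) :
    chi u M = Polynomial.C u ^ Fintype.card (BB m d) * (-(u⁻¹ • M)).charpoly := by
  unfold chi Matrix.charpoly
  rw [← Matrix.det_smul]
  congr 1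
  ext1 i j
  have h1 : Polynomial.C u * Polynomial.C (u⁻¹ * M i j) = Polynomial.C (M i j) := by
    rw [← Polynomial.C_mul, mul_inv_cancel_left₀ hu]
  simp only [Matrix.add_apply, Matrix.smul_apply, Matrix.map_apply, Matrix.charmatrix_apply,
    Matrix.neg_apply, smul_eq_mul, Matrix.one_apply, Matrix.diagonal_apply, Polynomial.C_neg,
    sub_neg_eq_add, mul_add, h1]
  by_cases hij : i = j
  · simp [hij]
  · simp [hij]

/-- Kernel vectors are eigenvectors. -/
lemma eig {L : Type} [Field L] {m d : ℕ} (u : L) (hu : u ≠ 0)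
    (M : Matrix (BB m d) (BB m d) L) (c : L) (v : BB m d → L)
    (hv : ((u * c) • (1 : Matrix (BB m d) (BB m d) L) + M).mulVec v = 0) :
    v ∈ End.eigenspace (Matrix.toLin' (-(u⁻¹ • M))) c := by
  rw [End.mem_eigenspace_iff, Matrix.toLin'_apply, Matrix.neg_mulVec, Matrix.smul_mulVec]
  rw [Matrix.add_mulVec, Matrix.smul_mulVec, Matrix.one_mulVec] at hv
  rw [eq_neg_of_add_eq_zero_right hv, smul_neg, neg_neg, smul_smul, ← mul_assoc,
    inv_mul_cancel₀ hu, one_mul]

/-- Two independent vectors in the kernel. -/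
lemma two {L : Type} [Field L] {m d : ℕ} (u : L) (hu : u ≠ 0)
    (M : Matrix (BB m d) (BB m d) L) (c : L) (v : BB m d → L) (hv0 : v ≠ 0) (v' : BB m d → L)
    (hv1 : ∀ l : L, v' ≠ l • v)
    (hv : ((u * c) • (1 : Matrix (BB m d) (BB m d) L) + M).mulVec v = 0)
    (hv' : ((u * c) • (1 : Matrix (BB m d) (BB m d) L) + M).mulVec v' = 0) :
    (Polynomial.derivative (chi u M)).eval c = 0 := by
  have h1 := eig u hu M c v hv
  have h2 := eig u hu M c v' hv'
  have hli : LinearIndependent L ![v, v'] :=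
    (LinearIndependent.pair_iff' hv0).2 fun a h => hv1 a h.symm
  have hli2 : LinearIndependent L (![⟨v, h1⟩, ⟨v', h2⟩] :
      Fin 2 → End.eigenspace (Matrix.toLin' (-(u⁻¹ • M))) c) := by
    apply LinearIndependent.of_comp (End.eigenspace (Matrix.toLin' (-(u⁻¹ • M))) c).subtype
    have : ((End.eigenspace (Matrix.toLin' (-(u⁻¹ • M))) c).subtype ∘ ![⟨v, h1⟩, ⟨v', h2⟩] :
        Fin 2 → BB m d → L) = ![v, v'] := by
      funext i
      fin_cases i <;> rfl
    rw [this]
    exact hli
  have hr : 2 ≤ finrank L (End.eigenspace (Matrix.toLin' (-(u⁻¹ • M))) c) := by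
    have := hli2.fintype_card_le_finrank
    simpa using this
  have hr2 : 2 ≤ (Matrix.toLin' (-(u⁻¹ • M))).charpoly.rootMultiplicity c := by
    rw [← LinearMap.finrank_maxGenEigenspace_eq]
    refine hr.trans (Submodule.finrank_mono ?_)
    exact End.genEigenspace_le_maximal _ _ _
  rw [Matrix.charpoly_toLin'] at hr2
  have hne : (-(u⁻¹ • M)).charpoly ≠ 0 := (Matrix.charpoly_monic _).ne_zero
  have h3 := (Polynomial.one_lt_rootMultiplicity_iff_isRoot hne).1 hr2
  have h4 : (Polynomial.derivative (-(u⁻¹ • M)).charpoly).eval c = 0 := h3.2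
  rw [chi_eq u hu, ← Polynomial.C_pow, Polynomial.derivative_C_mul, Polynomial.eval_mul, h4,
    mul_zero]

theorem t_EG (hEE : P_EE) : P_EG := by
  intro k k₁ _ _ ψ m d u M c hu
  have hψ : Function.Injective ψ := ψ.injective
  have he : (chi u M).eval c = Matrix.det ((u * c) • (1 : Matrix (BB m d) (BB m d) k) + M) :=
    (hEE (RingHom.id k) (0 : MvPolynomial (Fin m) k) u M).2.2.1 c
  refine ⟨fun v hv hv' => ?_, fun v hv v' hl h1 h2 => ?_, fun h => ?_⟩
  · rw [he]
    have h1 : Matrix.det (((u * c) • (1 : Matrix (BB m d) (BB m d) k) + M).map ψ) = 0 :=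
      Matrix.exists_mulVec_eq_zero_iff.1 ⟨v, hv, hv'⟩
    apply hψ
    rw [map_zero, RingHom.map_det]
    exact h1
  · have hm : ((u * c) • (1 : Matrix (BB m d) (BB m d) k) + M).map ψ =
        (ψ u * ψ c) • (1 : Matrix (BB m d) (BB m d) k₁) + M.map ψ := by
      ext1 i j
      simp only [Matrix.map_apply, Matrix.add_apply, Matrix.smul_apply, smul_eq_mul, map_add,
        map_mul, Matrix.one_apply]
      by_cases hij : i = j
      · simp [hij]
      · simp [hij]
    rw [hm] at h1 h2
    have h3 := two (ψ u) ((map_ne_zero ψ).2 hu) (M.map ψ) (ψ c) v hv v' hl h1 h2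
    rw [(hEE ψ (0 : MvPolynomial (Fin m) k) u M).2.1, Polynomial.derivative_map,
      Polynomial.eval_map_apply] at h3
    exact hψ (h3.trans (map_zero ψ).symm)
  · rw [he] at h
    obtain ⟨v, hv, hv'⟩ := Matrix.exists_mulVec_eq_zero_iff.2 h
    exact ⟨v, hv, hv'⟩

end Pool.Agent.Q68.ND
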